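import Mathlib
import Pool.Agent.R821.DSeq

/-!
# The supremum of the topologies `τ_c`, `λ_c = λ_b`, need not be compatible with `λ_b`
-/

set_option autoImplicit false

open Filter Topology Pointwise

namespace Pool.Agent.R821.DS

/-! ### The flattened chains -/

/-- the walk `(0,0), (1,1), (1,0), (2,2), (2,1), (2,0), …` -/
def st : ℕ → ℕ × ℕ
  | 0 => (0, 0)
  | n + 1 => match (st n).2 with
    | 0 => ((st n).1 + 1, (st n).1 + 1)
    | i + 1 => ((st n).1, i)

theorem st_zero {n : ℕ} (h : (st n).2 = 0) : st (n + 1) = ((st n).1 + 1, (st n).1 + 1) := by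
  rw [st, h]

theorem st_succ {n i : ℕ} (h : (st n).2 = i + 1) : st (n + 1) = ((st n).1, i) := by
  rw [st, h]

theorem st_le (n : ℕ) : (st n).2 ≤ (st n).1 := by
  induction n with
  | zero => exact le_rfl
  | succ n ih =>
    rcases h : (st n).2 with _ | i
    · rw [st_zero h]
    · rw [st_succ h]
      change i ≤ (st n).1
      omega

theorem st_down {t j : ℕ} : ∀ {n : ℕ}, st n = (t, j) → ∀ i ≤ j, ∃ m, n ≤ m ∧ st m = (t, i) := by
  induction j with
  | zero =>
    intro n hn i hi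
    obtain rfl : i = 0 := by omega
    exact ⟨n, le_rfl, hn⟩
  | succ j ih =>
    intro n hn i hi
    rcases Nat.lt_or_ge j i with h | h
    · obtain rfl : i = j + 1 := by omega
      exact ⟨n, le_rfl, hn⟩
    · have h1 : st (n + 1) = (t, j) := by
        rw [st_succ (i := j) (by rw [hn]), hn]
      obtain ⟨m, hm, hm2⟩ := ih h1 i h
      exact ⟨m, by omega, hm2⟩

theorem st_surj (t : ℕ) : ∀ i ≤ t, ∃ n, st n = (t, i) := by
  induction t with
  | zero =>
    intro i hi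
    obtain rfl : i = 0 := by omega
    exact ⟨0, rfl⟩
  | succ t ih =>
    intro i hi
    obtain ⟨n, hn⟩ := ih 0 (Nat.zero_le t)
    have h1 : st (n + 1) = (t + 1, t + 1) := by
      rw [st_zero (by rw [hn]), hn]
    obtain ⟨m, -, hm⟩ := st_down h1 i hi
    exact ⟨m, hm⟩

theorem st_mono : Monotone fun n => (st n).1 := by
  refine monotone_nat_of_le_succ fun n => ?_
  rcases h : (st n).2 with _ | i
  · rw [st_zero h]
    exact Nat.le_succ _
  · rw [st_succ h]

theorem st_tendsto : Tendsto (fun n => (st n).1) atTop atTop := by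
  refine tendsto_atTop_atTop_of_monotone st_mono fun t => ?_
  obtain ⟨n, hn⟩ := st_surj t 0 (Nat.zero_le _)
  exact ⟨n, by rw [hn]⟩

/-- the data for one chain -/
structure Chain (N : ℕ → ℕ) (w r : ℕ → ℕ → ℕ) (z : ℕ → ℕ) : Prop where
  hw0 : ∀ t, 2 ≤ w t 0
  hw : ∀ t i, w t (i + 1) = w t i * r t i
  hr : ∀ t i, t + 2 ≤ r t i
  hz : ∀ t, t + 2 ≤ z t
  hN0 : N 0 = w 0 0 * z 0
  hN : ∀ t, N (t + 1) = N t * (w (t + 1) (t + 1) * z (t + 1))

variable {N : ℕ → ℕ} {w r : ℕ → ℕ → ℕ} {z : ℕ → ℕ}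

/-- the flattened chain -/
def chain (N : ℕ → ℕ) (w : ℕ → ℕ → ℕ) : ℕ → ℕ
  | 0 => 1
  | n + 1 => N (st n).1 / w (st n).1 (st n).2

namespace Chain

variable (C : Chain N w r z)

include C

theorem w_pos (t i : ℕ) : 0 < w t i := by
  induction i with
  | zero => have := C.hw0 t; omega
  | succ i ih =>
    rw [C.hw]
    have := C.hr t i
    exact Nat.mul_pos ih (by omega)

theorem N_pos (t : ℕ) : 0 < N t := by
  induction t with
  | zero =>
    rw [C.hN0]
    have h1 := C.w_pos 0 0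
    have h2 := C.hz 0
    exact Nat.mul_pos h1 (by omega)
  | succ t ih =>
    rw [C.hN]
    have h1 := C.w_pos (t + 1) (t + 1)
    have h2 := C.hz (t + 1)
    exact Nat.mul_pos ih (Nat.mul_pos h1 (by omega))

theorem w_dvd (t : ℕ) {i j : ℕ} (h : i ≤ j) : w t i ∣ w t j := by
  induction h with
  | refl => exact dvd_rfl
  | step _ ih =>
    rw [Nat.succ_eq_add_one, C.hw]
    exact ih.mul_right _

theorem w_dvd_N (t : ℕ) {i : ℕ} (h : i ≤ t) : w t i ∣ N t := by
  refine (C.w_dvd t h).trans ?_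
  cases t with
  | zero => exact ⟨z 0, C.hN0⟩
  | succ t => exact ⟨N t * z (t + 1), by rw [C.hN]; ring⟩

theorem step (n : ℕ) : ∃ q, (st n).1 + 2 ≤ q ∧ chain N w (n + 2) = chain N w (n + 1) * q := by
  have hle := st_le n
  change ∃ q, (st n).1 + 2 ≤ q ∧
    N (st (n + 1)).1 / w (st (n + 1)).1 (st (n + 1)).2 = N (st n).1 / w (st n).1 (st n).2 * q
  rcases h : (st n).2 with _ | i
  · rw [st_zero h]
    generalize (st n).1 = t at *
    refine ⟨w t 0 * z (t + 1), ?_, ?_⟩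
    · have h1 := C.hw0 t
      have h2 := C.hz (t + 1)
      nlinarith
    · have h1 : N (t + 1) / w (t + 1) (t + 1) = N t * z (t + 1) := by
        rw [C.hN, show N t * (w (t + 1) (t + 1) * z (t + 1)) = w (t + 1) (t + 1) * (N t * z (t + 1)) by
          ring, Nat.mul_div_cancel_left _ (C.w_pos _ _)]
      change N (t + 1) / w (t + 1) (t + 1) = _
      rw [h1]
      obtain ⟨K, hK⟩ := C.w_dvd_N t (Nat.zero_le t)
      rw [hK, Nat.mul_div_cancel_left _ (C.w_pos _ _)]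
      ring
  · rw [st_succ h]
    rw [h] at hle
    generalize (st n).1 = t at *
    refine ⟨r t i, C.hr t i, ?_⟩
    obtain ⟨K, hK⟩ := C.w_dvd_N t hle
    change N t / w t i = _
    rw [hK, Nat.mul_div_cancel_left _ (C.w_pos _ _), C.hw, mul_assoc,
      Nat.mul_div_cancel_left _ (C.w_pos _ _), mul_comm]

theorem chain_pos (n : ℕ) : 0 < chain N w n := by
  cases n with
  | zero => exact Nat.one_pos
  | succ n =>
    exact Nat.div_pos (Nat.le_of_dvd (C.N_pos _) (C.w_dvd_N _ (st_le n))) (C.w_pos _ _)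

theorem dinf : DInf (chain N w) := by
  refine ⟨⟨rfl, fun n => ⟨C.chain_pos n, ?_⟩⟩, ?_⟩
  · cases n with
    | zero =>
      refine ⟨one_dvd _, ?_⟩
      change 1 ≠ N 0 / w 0 0
      rw [C.hN0, Nat.mul_div_cancel_left _ (C.w_pos _ _)]
      have := C.hz 0
      omega
    | succ n =>
      obtain ⟨q, hq, h⟩ := C.step n
      refine ⟨⟨q, h⟩, ?_⟩
      have h2 := C.chain_pos (n + 1)
      change chain N w (n + 1) ≠ chain N w (n + 2)
      rw [h]
      nlinarith
  · rw [← tendsto_add_atTop_iff_nat 1]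
    refine tendsto_atTop_mono (fun n => ?_) st_tendsto
    obtain ⟨q, hq, h⟩ := C.step n
    change (st n).1 ≤ chain N w (n + 2) / chain N w (n + 1)
    rw [h, Nat.mul_div_cancel_left _ (C.chain_pos _)]
    omega

theorem dvd_N (n : ℕ) : ∃ t, chain N w n ∣ N t := by
  cases n with
  | zero => exact ⟨0, one_dvd _⟩
  | succ n =>
    exact ⟨(st n).1, Nat.div_dvd_of_dvd (C.w_dvd_N _ (st_le n))⟩

theorem N_dvd (t : ℕ) : ∃ n, N t ∣ chain N w n := by
  obtain ⟨n, hn⟩ := st_surj (t + 1) (t + 1) le_rfl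
  refine ⟨n + 1, z (t + 1), ?_⟩
  change N (st n).1 / w (st n).1 (st n).2 = _
  rw [hn]
  change N (t + 1) / w (t + 1) (t + 1) = _
  rw [C.hN, show N t * (w (t + 1) (t + 1) * z (t + 1)) = w (t + 1) (t + 1) * (N t * z (t + 1)) by
          ring, Nat.mul_div_cancel_left _ (C.w_pos _ _)]

theorem inv_eq {t i : ℕ} (h : i ≤ t) : ∃ n, 1 ≤ n ∧ 1 / (chain N w n : ℝ) = (w t i : ℝ) / N t := by
  obtain ⟨n, hn⟩ := st_surj t i h
  refine ⟨n + 1, by omega, ?_⟩
  have h1 : chain N w (n + 1) = N t / w t i := by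
    change N (st n).1 / w (st n).1 (st n).2 = _
    rw [hn]
  have h2 : (w t i : ℝ) ≠ 0 := by exact_mod_cast (C.w_pos t i).ne'
  rw [h1, Nat.cast_div (C.w_dvd_N t h) h2, one_div_div]

end Chain

/-! ### The two chains -/

/-- the pairs `(u_{t,i}, v_{t,i})` -/
def uv (t : ℕ) : ℕ → ℕ × ℕ
  | 0 => (t + 3, t + 2)
  | i + 1 => ((uv t i).1 * ((uv t i).2 + 2), (uv t i).2 * ((uv t i).1 + 2))

theorem uv_sub (t i : ℕ) : (uv t i).1 = (uv t i).2 + 2 ^ i := by
  induction i with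
  | zero => simp [uv]
  | succ i ih =>
    simp only [uv]
    rw [ih]
    ring

theorem uv_ge (t i : ℕ) : t + 3 ≤ (uv t i).1 ∧ t + 2 ≤ (uv t i).2 := by
  induction i with
  | zero => exact ⟨le_rfl, le_rfl⟩
  | succ i ih =>
    simp only [uv]
    obtain ⟨h1, h2⟩ := ih
    constructor
    · nlinarith
    · nlinarith

/-- the products `N_t` -/
def NN : ℕ → ℕ
  | 0 => (uv 0 0).1 * (uv 0 0).2
  | t + 1 => NN t * ((uv (t + 1) (t + 1)).1 * (uv (t + 1) (t + 1)).2)

theorem chainU : Chain NN (fun t i => (uv t i).1) (fun t i => (uv t i).2 + 2)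
    (fun t => (uv t t).2) where
  hw0 t := by have := (uv_ge t 0).1; omega
  hw t i := rfl
  hr t i := by have := (uv_ge t i).2; omega
  hz t := (uv_ge t t).2
  hN0 := rfl
  hN t := rfl

theorem chainV : Chain NN (fun t i => (uv t i).2) (fun t i => (uv t i).1 + 2)
    (fun t => (uv t t).1) where
  hw0 t := by have := (uv_ge t 0).2; omega
  hw t i := rfl
  hr t i := by have := (uv_ge t i).1; omega
  hz t := by have := (uv_ge t t).1; omega
  hN0 := by
    change (uv 0 0).1 * (uv 0 0).2 = (uv 0 0).2 * (uv 0 0).1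
    ring
  hN t := by
    change NN t * ((uv (t + 1) (t + 1)).1 * (uv (t + 1) (t + 1)).2) =
      NN t * ((uv (t + 1) (t + 1)).2 * (uv (t + 1) (t + 1)).1)
    ring

/-- the first D-sequence -/
def cc : ℕ → ℕ := chain NN (fun t i => (uv t i).1)

/-- the second D-sequence -/
def dd : ℕ → ℕ := chain NN (fun t i => (uv t i).2)

theorem lam_dd : lam dd = lam cc := by
  refine lam_eq chainV.dinf.1 chainU.dinf.1 (fun n => ?_) (fun n => ?_)
  · obtain ⟨t, ht⟩ := chainU.dvd_N n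
    obtain ⟨m, hm⟩ := chainV.N_dvd t
    exact ⟨m, ht.trans hm⟩
  · obtain ⟨t, ht⟩ := chainV.dvd_N n
    obtain ⟨m, hm⟩ := chainU.N_dvd t
    exact ⟨m, ht.trans hm⟩

/-! ### The character -/

theorem doubling {y : T} {δ : ℝ} (hδ : δ ≤ 1 / 4) : ∀ (t : ℕ), (∀ i ≤ t, ‖(2 ^ i : ℕ) • y‖ ≤ δ) →
    ‖y‖ ≤ δ / 2 ^ t := by
  intro t
  induction t generalizing y with
  | zero =>
    intro h
    have := h 0 le_rfl
    simpa using this
  | succ t ih =>
    intro h
    have h1 : ‖(2 : ℕ) • y‖ ≤ δ / 2 ^ t := by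
      refine ih fun i hi => ?_
      have := h (i + 1) (by omega)
      rwa [pow_succ, mul_smul] at this
    have h0 : ‖y‖ ≤ δ := by
      have := h 0 (Nat.zero_le _)
      simpa using this
    obtain ⟨r, hr, hr1, -⟩ := exists_real y
    have h2 : (2 : ℕ) • y = ((2 * r : ℝ) : T) := by
      rw [← hr, ← AddCircle.coe_nsmul]
      simp
    have h3 : |2 * r| ≤ 1 / 2 := by
      rw [abs_mul, hr1, abs_of_pos (by norm_num : (0 : ℝ) < 2)]
      linarith
    rw [h2, norm_coe_eq h3, abs_mul, hr1, abs_of_pos (by norm_num : (0 : ℝ) < 2)] at h1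
    rw [pow_succ, ← div_div]
    linarith

theorem NN_pos (t : ℕ) : (0 : ℝ) < NN t := by exact_mod_cast chainU.N_pos t

theorem NN_four (t : ℕ) : 4 * NN t ≤ NN (t + 1) := by
  change 4 * NN t ≤ NN t * ((uv (t + 1) (t + 1)).1 * (uv (t + 1) (t + 1)).2)
  have h1 := (uv_ge (t + 1) (t + 1)).1
  have h2 := (uv_ge (t + 1) (t + 1)).2
  have h3 : 4 ≤ (uv (t + 1) (t + 1)).1 * (uv (t + 1) (t + 1)).2 := by nlinarith
  nlinarith

theorem NN_ge (t j : ℕ) : (4 : ℝ) ^ j * NN t ≤ NN (t + j) := by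
  induction j with
  | zero => simp
  | succ j ih =>
    have h1 : (4 : ℝ) * NN (t + j) ≤ NN (t + j + 1) := by exact_mod_cast NN_four (t + j)
    rw [pow_succ, ← add_assoc]
    linarith

theorem NN_dvd {s t : ℕ} (h : s ≤ t) : NN s ∣ NN t := by
  induction h with
  | refl => exact dvd_rfl
  | step _ ih => exact ih.mul_right _

theorem summ : Summable fun t => 1 / (NN t : ℝ) := by
  refine Summable.of_nonneg_of_le (fun t => (div_pos one_pos (NN_pos t)).le) (fun t => ?_)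
    (summable_geometric_of_lt_one (r := 1 / 4) (by norm_num) (by norm_num))
  have h1 := NN_ge 0 t
  rw [zero_add] at h1
  have h2 : (1 : ℝ) ≤ NN 0 := by exact_mod_cast chainU.N_pos 0
  have h3 : (4 : ℝ) ^ t ≤ NN t := by
    refine le_trans ?_ h1
    have : (0 : ℝ) < 4 ^ t := by positivity
    nlinarith
  rw [one_div_pow]
  exact div_le_div_of_nonneg_left (by norm_num) (by positivity) h3

/-- the real number defining the new character -/
noncomputable def xr : ℝ := ∑' t, 1 / (NN t : ℝ)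

/-- the estimate for the elements of the intersection of two neighbourhoods -/
theorem small {m : ℕ} (hm : 2 ≤ m) {k : ℤ}
    (hc : k ∈ Vset {x : T | ∃ n, 1 ≤ n ∧ x = ((1 / (cc n : ℝ) : ℝ) : T)} m)
    (hd : k ∈ Vset {x : T | ∃ n, 1 ≤ n ∧ x = ((1 / (dd n : ℝ) : ℝ) : T)} m) (t : ℕ) :
    ‖k • ((1 / (NN t : ℝ) : ℝ) : T)‖ ≤ (1 / (2 * (m : ℝ))) / 2 ^ t := by
  rw [mem_Vset] at hc hd
  have hm0 : (2 : ℝ) ≤ m := by exact_mod_cast hm
  refine doubling ?_ t fun i hi => ?_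
  · rw [div_le_div_iff₀ (by positivity) (by norm_num)]
    linarith
  · obtain ⟨n, hn, h1⟩ := chainU.inv_eq hi
    obtain ⟨n', hn', h2⟩ := chainV.inv_eq hi
    have h3 := hc _ ⟨n, hn, rfl⟩
    have h4 := hd _ ⟨n', hn', rfl⟩
    have h5 : (2 ^ i : ℕ) • k • ((1 / (NN t : ℝ) : ℝ) : T) =
        k • ((1 / (cc n : ℝ) : ℝ) : T) - k • ((1 / (dd n' : ℝ) : ℝ) : T) := by
      rw [smul_comm, ← smul_sub, ← AddCircle.coe_sub, ← AddCircle.coe_nsmul]
      congr 2
      change _ = 1 / (chain NN (fun t i => (uv t i).1) n : ℝ) -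
        1 / (chain NN (fun t i => (uv t i).2) n' : ℝ)
      rw [h1, h2, ← sub_div, uv_sub, nsmul_eq_mul]
      push_cast
      ring
    rw [h5]
    refine (norm_sub_le _ _).trans ?_
    have h6 : 1 / (4 * (m : ℝ)) + 1 / (4 * (m : ℝ)) = 1 / (2 * m) := by
      field_simp
      norm_num
    linarith

theorem small_x {m : ℕ} (hm : 2 ≤ m) {k : ℤ}
    (hc : k ∈ Vset {x : T | ∃ n, 1 ≤ n ∧ x = ((1 / (cc n : ℝ) : ℝ) : T)} m)
    (hd : k ∈ Vset {x : T | ∃ n, 1 ≤ n ∧ x = ((1 / (dd n : ℝ) : ℝ) : T)} m) :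
    ‖k • (xr : T)‖ ≤ 1 / (m : ℝ) := by
  have h1 : Tendsto (fun n => ∑ t ∈ Finset.range n, 1 / (NN t : ℝ)) atTop (𝓝 xr) :=
    summ.hasSum.tendsto_sum_nat
  have h2 : Tendsto (fun n => ‖k • ((∑ t ∈ Finset.range n, 1 / (NN t : ℝ) : ℝ) : T)‖) atTop
      (𝓝 ‖k • (xr : T)‖) := by
    have hcont : Continuous fun r : ℝ => ‖k • (r : T)‖ :=
      ((continuous_zsmul k).comp (AddCircle.continuous_mk' 1)).norm
    exact (hcont.tendsto xr).comp h1
  refine le_of_tendsto h2 (Eventually.of_forall fun n => ?_)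
  have hm0 : (2 : ℝ) ≤ m := by exact_mod_cast hm
  have h3 : ((∑ t ∈ Finset.range n, 1 / (NN t : ℝ) : ℝ) : T) =
      ∑ t ∈ Finset.range n, ((1 / (NN t : ℝ) : ℝ) : T) := by
    exact map_sum (QuotientAddGroup.mk' (AddSubgroup.zmultiples (1 : ℝ))) _ _
  rw [h3, Finset.smul_sum]
  calc ‖∑ t ∈ Finset.range n, k • ((1 / (NN t : ℝ) : ℝ) : T)‖
      ≤ ∑ t ∈ Finset.range n, ‖k • ((1 / (NN t : ℝ) : ℝ) : T)‖ := norm_sum_le _ _
    _ ≤ ∑ t ∈ Finset.range n, (1 / (2 * (m : ℝ))) * (1 / 2) ^ t := by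
        refine Finset.sum_le_sum fun t _ => ?_
        have := small hm hc hd t
        rwa [div_eq_mul_one_div (1 / (2 * (m : ℝ))), ← one_div_pow] at this
    _ = (1 / (2 * (m : ℝ))) * ∑ t ∈ Finset.range n, (1 / 2 : ℝ) ^ t := by rw [Finset.mul_sum]
    _ ≤ (1 / (2 * (m : ℝ))) * 2 := by
        refine mul_le_mul_of_nonneg_left ?_ (by positivity)
        have h4 := Summable.sum_le_tsum (f := fun t : ℕ => (1 / 2 : ℝ) ^ t) (Finset.range n)
          (fun i _ => by positivity) summable_geometric_two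
        rwa [tsum_geometric_two] at h4
    _ = 1 / m := by
        field_simp

theorem not_Hb : ((xr : ℝ) : T) ∉ Hb cc := by
  rintro ⟨k, n, h⟩
  obtain ⟨s, hs⟩ := chainU.dvd_N n
  have hcn : (0 : ℝ) < cc n := by exact_mod_cast chainU.chain_pos n
  -- `NN s` annihilates the right-hand side
  have h1 : (NN s) • (xr : T) = 0 := by
    obtain ⟨q, hq⟩ := hs
    rw [h, ← AddCircle.coe_nsmul, AddCircle.coe_eq_zero_iff]
    refine ⟨q * k, ?_⟩
    have hq' : (NN s : ℝ) = cc n * q := by exact_mod_cast hq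
    simp only [zsmul_eq_mul, nsmul_eq_mul, mul_one]
    rw [hq']
    push_cast
    field_simp
  -- the decomposition of `NN s * xr`
  have h2 : xr = ∑ t ∈ Finset.range (s + 1), 1 / (NN t : ℝ) + ∑' t, 1 / (NN (t + (s + 1)) : ℝ) :=
    (summ.sum_add_tsum_nat_add (s + 1)).symm
  have h3 : ∃ a : ℤ, (NN s : ℝ) * ∑ t ∈ Finset.range (s + 1), 1 / (NN t : ℝ) = a := by
    refine ⟨∑ t ∈ Finset.range (s + 1), ((NN s / NN t : ℕ) : ℤ), ?_⟩
    rw [Finset.mul_sum]
    push_cast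
    refine Finset.sum_congr rfl fun t ht => ?_
    have ht' : t ≤ s := by
      have := Finset.mem_range.1 ht
      omega
    obtain ⟨q, hq⟩ := NN_dvd ht'
    have hq' : (NN s : ℝ) = NN t * q := by exact_mod_cast hq
    have h5 : NN s / NN t = q := by
      rw [hq, Nat.mul_div_cancel_left _ (chainU.N_pos t)]
    have h6 := NN_pos t
    have h7 : (((NN s / NN t : ℕ)) : ℝ) = q := by rw [h5]
    rw [hq']
    field_simp
    exact h7.symm
  obtain ⟨a, ha⟩ := h3
  -- the tail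
  set τ : ℝ := ∑' t, 1 / (NN (t + (s + 1)) : ℝ) with hτ
  have hsum : Summable fun t => 1 / (NN (t + (s + 1)) : ℝ) := (summable_nat_add_iff (s + 1)).2 summ
  have h4 : 0 < τ := by
    refine hsum.tsum_pos (fun t => (div_pos one_pos (NN_pos _)).le) 0 (div_pos one_pos (NN_pos _))
  have h5 : (NN s : ℝ) * τ ≤ 1 / 3 := by
    rw [hτ, ← tsum_mul_left]
    have h6 : ∀ t, (NN s : ℝ) * (1 / (NN (t + (s + 1)) : ℝ)) ≤ (1 / 4) * (1 / 4 : ℝ) ^ t := by
      intro t
      have h7 := NN_ge s (t + 1)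
      rw [show s + (t + 1) = t + (s + 1) by ring] at h7
      have h8 := NN_pos (t + (s + 1))
      rw [mul_one_div, div_le_iff₀ h8, one_div_pow]
      have h9 : (1 : ℝ) / 4 * (1 / 4 ^ t) * (4 ^ (t + 1) * NN s) = NN s := by
        rw [pow_succ]
        field_simp
      calc (NN s : ℝ) = 1 / 4 * (1 / 4 ^ t) * (4 ^ (t + 1) * NN s) := h9.symm
        _ ≤ 1 / 4 * (1 / 4 ^ t) * NN (t + (s + 1)) :=
            mul_le_mul_of_nonneg_left h7 (by positivity)
    have h10 : Summable fun t : ℕ => (1 / 4 : ℝ) * (1 / 4 : ℝ) ^ t :=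
      (summable_geometric_of_lt_one (by norm_num) (by norm_num)).mul_left _
    have h11 := Summable.tsum_le_tsum h6 (hsum.mul_left _) h10
    refine h11.trans ?_
    rw [tsum_mul_left, tsum_geometric_of_lt_one (by norm_num) (by norm_num)]
    norm_num
  have h6 : (NN s) • (xr : T) = (((NN s : ℝ) * τ : ℝ) : T) := by
    rw [← AddCircle.coe_nsmul, nsmul_eq_mul]
    have h7 : (NN s : ℝ) * xr = a + (NN s : ℝ) * τ := by
      rw [h2, mul_add, ha]
    rw [h7, AddCircle.coe_add]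
    have h8 : ((a : ℝ) : T) = 0 := by
      rw [AddCircle.coe_eq_zero_iff]
      exact ⟨a, by simp⟩
    rw [h8, zero_add]
  have h7 : ‖(((NN s : ℝ) * τ : ℝ) : T)‖ = |(NN s : ℝ) * τ| := by
    refine norm_coe_eq ?_
    rw [abs_of_pos (mul_pos (NN_pos s) h4)]
    linarith
  rw [← h6, h1, norm_zero] at h7
  have h8 := mul_pos (NN_pos s) h4
  rw [abs_of_pos h8] at h7
  exact h8.ne h7

theorem sup_group (b : ℕ → ℕ) : @IsTopologicalAddGroup ℤ (sup b) _ := by
  refine topologicalAddGroup_sInf ?_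
  rintro τ ⟨c, -, -, rfl⟩
  exact unifTop_group _

theorem chr_cont : @Continuous ℤ T (sup cc) _ (chr (xr : T)) := by
  have hc : sup cc ≤ tau cc := sInf_le ⟨cc, chainU.dinf, rfl, rfl⟩
  have hd : sup cc ≤ tau dd := sInf_le ⟨dd, chainV.dinf, lam_dd, rfl⟩
  have h1 : @ContinuousAt ℤ T (sup cc) _ (chr (xr : T)) 0 := by
    change Tendsto (chr (xr : T)) (@nhds ℤ (sup cc) 0) (𝓝 (chr (xr : T) 0))
    rw [map_zero, Metric.tendsto_nhds]
    intro δ hδ
    obtain ⟨m, hm⟩ := exists_nat_gt (1 / δ)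
    have hm0 : (0 : ℝ) < m := lt_trans (by positivity) hm
    set m' := max m 2 with hm'
    have hmm' : (m : ℝ) ≤ m' := by exact_mod_cast le_max_left m 2
    have hm2 : 2 ≤ m' := le_max_right m 2
    have h2 : Vset {x : T | ∃ n, 1 ≤ n ∧ x = ((1 / (cc n : ℝ) : ℝ) : T)} m' ∈ @nhds ℤ (tau cc) 0 :=
      (unifTop_mem _).2 ⟨m', by omega, Set.Subset.refl _⟩
    have h3 : Vset {x : T | ∃ n, 1 ≤ n ∧ x = ((1 / (dd n : ℝ) : ℝ) : T)} m' ∈ @nhds ℤ (tau dd) 0 :=
      (unifTop_mem _).2 ⟨m', by omega, Set.Subset.refl _⟩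
    filter_upwards [nhds_mono hc h2, nhds_mono hd h3] with k hk1 hk2
    rw [dist_zero_right, chr_apply]
    refine lt_of_le_of_lt (small_x hm2 hk1 hk2) ?_
    have h4 : (0 : ℝ) < m' := lt_of_lt_of_le hm0 hmm'
    rw [div_lt_iff₀ h4]
    rw [div_lt_iff₀ hδ] at hm
    nlinarith
  exact @cont_aux ℤ _ (sup cc) (sup_group cc) (chr (xr : T)) h1

end Pool.Agent.R821.DS

namespace Pool.Agent.Results.MP_4ba7b3_gt.NotCompatible

open Pool.Agent.R821.DS

/-- **Negative answer to Q1 of MP_4ba7b3.** There is a D-sequence `b` (which can be chosen with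
`b (n + 1) / b n → ∞`) such that the topology `s_b` is not compatible with `λ_b`: some
`s_b`-continuous character `χ : ℤ → ℝ/ℤ` is not `λ_b`-continuous and `χ 1` is not of the form
`k / b n + ℤ`. -/
theorem result :
    ∃ b : ℕ → ℕ, DInf b ∧ ∃ χ : ℤ →+ UnitAddCircle,
      @Continuous ℤ UnitAddCircle (sup b) _ χ ∧ ¬ @Continuous ℤ UnitAddCircle (lam b) _ χ ∧
      χ 1 ∉ Hb b := by
  refine ⟨cc, chainU.dinf, Pool.Agent.R821.chr (xr : Pool.Agent.R821.T), chr_cont, fun h => ?_, ?_⟩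
  · have h1 := char_lam chainU.dinf.1 h
    rw [Pool.Agent.R821.chr_apply, one_smul] at h1
    exact not_Hb h1
  · rw [Pool.Agent.R821.chr_apply, one_smul]
    exact not_Hb

end Pool.Agent.Results.MP_4ba7b3_gt.NotCompatible
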